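import Pool.Agent.KS6_28.TB.Cyl

/-!
# Isomorphisms between the surfaces `z ^ 2 = (T - 2) ((T - 1) ^ n y + (T - 2) f)`
-/

set_option autoImplicit false

namespace Pool.Agent.KS6_28.TB
open Polynomial Pool.Agent.H.MP_340332_ag

variable {K : Type*} [Field K]


theorem evL_toL {τ : K} (h : IsUnit τ) (p : K[X]) : evL h (toLaurent p) = p.eval τ := by
  simp [evL, LaurentPolynomial.eval₂_toLaurent, IsUnit.unit_spec, Algebra.algebraMap_self, eval₂_id]

theorem dvd_iff {τ : K} (hτ : IsUnit τ) (h : (LaurentPolynomial K)) :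
    (LaurentPolynomial.T 1 : LaurentPolynomial K) - LaurentPolynomial.C τ ∣ h ↔ evL hτ h = 0 := by
  constructor
  · rintro ⟨g, rfl⟩
    simp
  · intro h0
    obtain ⟨n, f, hf⟩ := LaurentPolynomial.exists_T_pow h
    have h1 : f.eval τ = 0 := by
      rw [← evL_toL hτ, hf, map_mul, h0, zero_mul]
    obtain ⟨g, hg⟩ := dvd_iff_isRoot.2 h1
    refine ⟨toLaurent g * LaurentPolynomial.T (-n), ?_⟩
    have h2 : toLaurent f = ((LaurentPolynomial.T 1 : LaurentPolynomial K) - LaurentPolynomial.C τ) * toLaurent g := by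
      rw [hg, map_mul, map_sub, toLaurent_X, toLaurent_C]
    rw [← mul_assoc, ← h2, hf, mul_assoc, ← LaurentPolynomial.T_add]
    simp

theorem unit_form {α : (LaurentPolynomial K)} (h : IsUnit α) : ∃ (c : K) (j : ℤ), c ≠ 0 ∧
    α = LaurentPolynomial.C c * LaurentPolynomial.T j := by
  obtain ⟨β, hβ⟩ := h.exists_right_inv
  obtain ⟨n, f, hf⟩ := LaurentPolynomial.exists_T_pow α
  obtain ⟨l, g, hg⟩ := LaurentPolynomial.exists_T_pow β
  have h1 : f * g = X ^ (n + l) := by
    apply toLaurent_injective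
    rw [map_mul, hf, hg, toLaurent_X_pow, Nat.cast_add, LaurentPolynomial.T_add]
    linear_combination (LaurentPolynomial.T n * LaurentPolynomial.T l : (LaurentPolynomial K)) * hβ
  obtain ⟨i, -, u, hu⟩ := (dvd_prime_pow prime_X _).1 ⟨g, h1.symm⟩
  obtain ⟨c, hc0, hc⟩ := Polynomial.isUnit_iff.1 u.isUnit
  obtain ⟨c', hcc'⟩ := hc0.exists_right_inv
  refine ⟨c', (i : ℤ) - n, right_ne_zero_of_mul_eq_one hcc', ?_⟩
  have h2 : f * C c = X ^ i := by rw [hc, hu]
  have h3 : f = X ^ i * C c' := by
    rw [← h2, mul_assoc, ← C_mul, hcc', C_1, mul_one]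
  have h4 : α = toLaurent f * LaurentPolynomial.T (-n) := by
    rw [hf, mul_assoc, ← LaurentPolynomial.T_add]; simp
  rw [h4, h3, map_mul, toLaurent_X_pow, toLaurent_C, LaurentPolynomial.T_sub,
    show (LaurentPolynomial.T (-(n : ℤ)) : (LaurentPolynomial K)) = LaurentPolynomial.T (-n) from rfl]
  ring

/-- The surface `z ^ 2 = (T - 2) ((T - 1) ^ n y + (T - 2) f)`. -/
abbrev Sur (n : ℕ) (f : (LaurentPolynomial K)) := Q (((LaurentPolynomial.T 1 : LaurentPolynomial K) - 2) * ((LaurentPolynomial.T 1 : LaurentPolynomial K) - 1) ^ n) (((LaurentPolynomial.T 1 : LaurentPolynomial K) - 2) ^ 2 * f)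

theorem evL_pow {s : (LaurentPolynomial K)} {c : K} {j : ℤ} (hs : IsUnit s) (hc : c ≠ 0)
    (h : s = LaurentPolynomial.C c * LaurentPolynomial.T j) (i : ℤ) :
    evL (S := (LaurentPolynomial K)) hs (LaurentPolynomial.T i : (LaurentPolynomial K)) =
      LaurentPolynomial.C (c ^ i) * LaurentPolynomial.T (j * i) := by
  have h1 : evL (S := (LaurentPolynomial K)) hs (LaurentPolynomial.T 1 : (LaurentPolynomial K)) = s := evL_T hs
  have h2 : evL (S := (LaurentPolynomial K)) hs (LaurentPolynomial.T (-1) : (LaurentPolynomial K)) =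
      LaurentPolynomial.C c⁻¹ * LaurentPolynomial.T (-j) := by
    have h3 := congrArg (evL (S := (LaurentPolynomial K)) hs) (TT (K := K))
    rw [map_mul, h1, map_one] at h3
    apply hs.mul_left_cancel
    rw [h3, h, show LaurentPolynomial.C c * LaurentPolynomial.T j *
      (LaurentPolynomial.C c⁻¹ * LaurentPolynomial.T (-j)) = (LaurentPolynomial.C c *
        LaurentPolynomial.C c⁻¹) * (LaurentPolynomial.T j * LaurentPolynomial.T (-j)) by ring,
      ← map_mul, mul_inv_cancel₀ hc, ← LaurentPolynomial.T_add]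
    simp
  induction i using Int.induction_on with
  | zero => simp
  | succ n ih =>
    rw [LaurentPolynomial.T_add, map_mul, ih, h1, h, zpow_add_one₀ hc, map_mul, mul_add, mul_one,
      LaurentPolynomial.T_add]
    ring
  | pred n ih =>
    rw [sub_eq_add_neg, LaurentPolynomial.T_add, map_mul, ih, h2, zpow_add₀ hc, map_mul, mul_add,
      mul_neg_one, LaurentPolynomial.T_add, zpow_neg_one]
    ring

theorem C_T_inj {a b : K} {i j : ℤ} (hb : b ≠ 0) (h : (LaurentPolynomial.C a *
    LaurentPolynomial.T i : (LaurentPolynomial K)) = LaurentPolynomial.C b * LaurentPolynomial.T j) : i = j := by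
  rw [← LaurentPolynomial.single_eq_C_mul_T, ← LaurentPolynomial.single_eq_C_mul_T] at h
  rcases AddMonoidAlgebra.single_inj.1 h with h | h
  · exact h.1
  · exact absurd h.2 hb

theorem isUnit_of_alg {m e s : (LaurentPolynomial K)} (h : IsUnit (algebraMap (LaurentPolynomial K) (Q m e) s)) : IsUnit s := by
  obtain ⟨w, hw⟩ := h.exists_right_inv
  have h1 := congrArg (fun x => (QuadraticAlgebra.re x).coeff 0) hw
  simp [alg_eq, QuadraticAlgebra.re_one] at h1
  exact IsUnit.of_mul_eq_one _ h1

/-- An isomorphism of surfaces maps `T` to `c T` or to `c / T`. -/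
theorem iso_T {m e m' e' : (LaurentPolynomial K)} (hm : m ≠ 0) (hm' : m' ≠ 0) (φ : Q m e ≃ₐ[K] Q m' e') {s : (LaurentPolynomial K)}
    (h : φ (algebraMap (LaurentPolynomial K) _ (LaurentPolynomial.T 1 : LaurentPolynomial K)) = algebraMap (LaurentPolynomial K) _ s) :
    ∃ (hs : IsUnit s) (c : K) (j : ℤ), c ≠ 0 ∧ (j = 1 ∨ j = -1) ∧
      s = LaurentPolynomial.C c * LaurentPolynomial.T j ∧
      ∀ r, φ (algebraMap (LaurentPolynomial K) _ r) = algebraMap (LaurentPolynomial K) _ (evL (S := (LaurentPolynomial K)) hs r) := by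
  have hs : IsUnit s := isUnit_of_alg (m := m') (e := e') (by
    rw [← h]; exact ((LaurentPolynomial.isUnit_T 1).map _).map _)
  have h1 : ∀ r, φ (algebraMap (LaurentPolynomial K) _ r) = algebraMap (LaurentPolynomial K) _ (evL (S := (LaurentPolynomial K)) hs r) := by
    have : ((φ : Q m e →+* Q m' e').comp (algebraMap (LaurentPolynomial K) _)) =
        (algebraMap (LaurentPolynomial K) (Q m' e')).comp (evL (S := (LaurentPolynomial K)) hs) := by
      refine L_ext (fun k => ?_) ?_
      · simp only [RingHom.comp_apply, RingHom.coe_coe, alg_C, AlgEquiv.commutes, evL_C]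
        rw [← LaurentPolynomial.C_eq_algebraMap, alg_C]
      · simp only [RingHom.comp_apply, RingHom.coe_coe, h, evL_T]
    exact fun r => DFunLike.congr_fun this r
  obtain ⟨s', -, -, -, -, -, -, -, h2, -⟩ := iso_form hm' hm φ.symm
  have hs' : IsUnit s' := isUnit_of_alg (m := m) (e := e) (by
    rw [← h2]; exact ((LaurentPolynomial.isUnit_T 1).map _).map _)
  obtain ⟨c, j, hc, hj⟩ := unit_form hs
  obtain ⟨c', j', hc', hj'⟩ := unit_form hs'
  have h3 : (LaurentPolynomial.T 1 : LaurentPolynomial K) = evL (S := (LaurentPolynomial K)) hs s' := by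
    have h4 := congrArg φ h2
    rw [AlgEquiv.apply_symm_apply, h1] at h4
    simpa [alg_eq] using h4
  rw [hj', map_mul, evL_C, evL_pow hs hc hj, ← LaurentPolynomial.C_eq_algebraMap, ← mul_assoc,
    ← map_mul, show (LaurentPolynomial.T 1 : LaurentPolynomial K) = LaurentPolynomial.C 1 * LaurentPolynomial.T 1 by simp] at h3
  have h5 := C_T_inj (mul_ne_zero hc' (zpow_ne_zero _ hc)) h3
  exact ⟨hs, c, j, hc, Int.eq_one_or_neg_one_of_mul_eq_one h5.symm, hj, h1⟩

theorem mm_ne [CharZero K] (n : ℕ) : ((LaurentPolynomial.T 1 : LaurentPolynomial K) - 2) * ((LaurentPolynomial.T 1 : LaurentPolynomial K) - 1) ^ n ≠ 0 := by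
  intro h
  have := congrArg (evL (K := K) (IsUnit.mk0 (3 : K) three_ne_zero)) h
  simp only [map_mul, map_sub, map_pow, evL_T, map_ofNat, map_one, map_zero] at this
  norm_num at this

/-- The basic isomorphisms. -/
theorem iso_of {n : ℕ} {f g : (LaurentPolynomial K)} {j : ℤ} (h : ((LaurentPolynomial.T 1 : LaurentPolynomial K) - 1) ^ n ∣ f - LaurentPolynomial.T (2 * j) * g) :
    Nonempty (Sur n f ≃ₐ[(LaurentPolynomial K)] Sur n g) := by
  obtain ⟨w, hw⟩ := h
  have e1 : (LaurentPolynomial.T (2 * j) : (LaurentPolynomial K)) = LaurentPolynomial.T j * LaurentPolynomial.T j := by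
    rw [← LaurentPolynomial.T_add, two_mul]
  have e2 : (LaurentPolynomial.T j * LaurentPolynomial.T (-j) : (LaurentPolynomial K)) = 1 := by
    rw [← LaurentPolynomial.T_add]; simp
  rw [e1] at hw
  obtain ⟨u, hu⟩ : ∃ u : (LaurentPolynomial K), u = LaurentPolynomial.T j := ⟨_, rfl⟩
  obtain ⟨v, hv⟩ : ∃ v : (LaurentPolynomial K), v = LaurentPolynomial.T (-j) := ⟨_, rfl⟩
  rw [← hu] at hw e2
  rw [← hv] at e2
  have h1 : (algebraMap (LaurentPolynomial K) (Sur n g) u * yy _ _) * (algebraMap (LaurentPolynomial K) (Sur n g) u * yy _ _) =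
      algebraMap (LaurentPolynomial K) (Sur n g) (((LaurentPolynomial.T 1 : LaurentPolynomial K) - 2) * ((LaurentPolynomial.T 1 : LaurentPolynomial K) - 1) ^ n) * (algebraMap (LaurentPolynomial K) _ (u * u) * zz _ _ -
        algebraMap (LaurentPolynomial K) _ (((LaurentPolynomial.T 1 : LaurentPolynomial K) - 2) * w)) + algebraMap (LaurentPolynomial K) (Sur n g) (((LaurentPolynomial.T 1 : LaurentPolynomial K) - 2) ^ 2 * f) := by
    have := rel (m := ((LaurentPolynomial.T 1 : LaurentPolynomial K) - 2) * ((LaurentPolynomial.T 1 : LaurentPolynomial K) - 1) ^ n) (e := ((LaurentPolynomial.T 1 : LaurentPolynomial K) - 2) ^ 2 * g)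
    have h2 := congrArg (algebraMap (LaurentPolynomial K) (Sur n g)) hw
    simp only [map_mul, map_sub, map_pow] at this h2 ⊢
    linear_combination (algebraMap (LaurentPolynomial K) (Sur n g) u * algebraMap (LaurentPolynomial K) (Sur n g) u) * this -
      (algebraMap (LaurentPolynomial K) (Sur n g) (LaurentPolynomial.T 1 : LaurentPolynomial K) - algebraMap (LaurentPolynomial K) (Sur n g) 2) ^ 2 * h2
  have h2 : (algebraMap (LaurentPolynomial K) (Sur n f) v * yy _ _) * (algebraMap (LaurentPolynomial K) (Sur n f) v * yy _ _) =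
      algebraMap (LaurentPolynomial K) (Sur n f) (((LaurentPolynomial.T 1 : LaurentPolynomial K) - 2) * ((LaurentPolynomial.T 1 : LaurentPolynomial K) - 1) ^ n) * (algebraMap (LaurentPolynomial K) _ (v * v) * (zz _ _ +
        algebraMap (LaurentPolynomial K) _ (((LaurentPolynomial.T 1 : LaurentPolynomial K) - 2) * w))) + algebraMap (LaurentPolynomial K) (Sur n f) (((LaurentPolynomial.T 1 : LaurentPolynomial K) - 2) ^ 2 * g) := by
    have := rel (m := ((LaurentPolynomial.T 1 : LaurentPolynomial K) - 2) * ((LaurentPolynomial.T 1 : LaurentPolynomial K) - 1) ^ n) (e := ((LaurentPolynomial.T 1 : LaurentPolynomial K) - 2) ^ 2 * f)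
    have h2 := congrArg (algebraMap (LaurentPolynomial K) (Sur n f)) hw
    have h3 := congrArg (algebraMap (LaurentPolynomial K) (Sur n f)) e2
    simp only [map_mul, map_sub, map_pow, map_one] at this h2 h3 ⊢
    linear_combination (algebraMap (LaurentPolynomial K) (Sur n f) v * algebraMap (LaurentPolynomial K) (Sur n f) v) * this +
      (algebraMap (LaurentPolynomial K) (Sur n f) v * algebraMap (LaurentPolynomial K) (Sur n f) v) *
        (algebraMap (LaurentPolynomial K) (Sur n f) (LaurentPolynomial.T 1 : LaurentPolynomial K) - algebraMap (LaurentPolynomial K) (Sur n f) 2) ^ 2 * h2 +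
      (algebraMap (LaurentPolynomial K) (Sur n f) (LaurentPolynomial.T 1 : LaurentPolynomial K) - algebraMap (LaurentPolynomial K) (Sur n f) 2) ^ 2 * algebraMap (LaurentPolynomial K) (Sur n f) g *
        (algebraMap (LaurentPolynomial K) (Sur n f) u * algebraMap (LaurentPolynomial K) (Sur n f) v + 1) * h3
  let Φ : Sur n f →ₐ[(LaurentPolynomial K)] Sur n g :=
    { mkQ (algebraMap (LaurentPolynomial K) _) _ _ h1 with commutes' := mkQ_alg _ _ _ _ }
  let Ψ : Sur n g →ₐ[(LaurentPolynomial K)] Sur n f :=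
    { mkQ (algebraMap (LaurentPolynomial K) _) _ _ h2 with commutes' := mkQ_alg _ _ _ _ }
  have Φy : Φ (yy _ _) = _ := mkQ_y _ _ _ h1
  have Φz : Φ (zz _ _) = _ := mkQ_z _ _ _ h1
  have Ψy : Ψ (yy _ _) = _ := mkQ_y _ _ _ h2
  have Ψz : Ψ (zz _ _) = _ := mkQ_z _ _ _ h2
  refine ⟨AlgEquiv.ofAlgHom Φ Ψ ?_ ?_⟩
  · have e3 := congrArg (algebraMap (LaurentPolynomial K) (Sur n g)) e2
    simp only [map_mul, map_one] at e3
    apply AlgHom.ext
    refine Q_ind (fun r => by simp only [AlgHom.commutes]) ?_ ?_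
      (fun a b h1 h2 => by simp only [map_add, h1, h2]) fun a b h1 h2 => by
        simp only [map_mul, h1, h2]
    · simp only [AlgHom.comp_apply, AlgHom.id_apply, Ψy, map_mul, AlgHom.commutes, Φy]
      linear_combination yy _ _ * e3
    · simp only [AlgHom.comp_apply, AlgHom.id_apply, Ψz, map_mul, map_add, AlgHom.commutes, Φz]
      linear_combination zz _ _ * (algebraMap (LaurentPolynomial K) (Sur n g) u * algebraMap (LaurentPolynomial K) (Sur n g) v + 1) * e3
  · have e3 := congrArg (algebraMap (LaurentPolynomial K) (Sur n f)) e2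
    simp only [map_mul, map_one] at e3
    apply AlgHom.ext
    refine Q_ind (fun r => by simp only [AlgHom.commutes]) ?_ ?_
      (fun a b h1 h2 => by simp only [map_add, h1, h2]) fun a b h1 h2 => by
        simp only [map_mul, h1, h2]
    · simp only [AlgHom.comp_apply, AlgHom.id_apply, Φy, map_mul, AlgHom.commutes, Ψy]
      linear_combination yy _ _ * e3
    · simp only [AlgHom.comp_apply, AlgHom.id_apply, Φz, map_mul, map_sub, AlgHom.commutes, Ψz]
      linear_combination (zz _ _ + (algebraMap (LaurentPolynomial K) (Sur n f) (LaurentPolynomial.T 1 : LaurentPolynomial K) - algebraMap (LaurentPolynomial K) (Sur n f) 2) *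
        algebraMap (LaurentPolynomial K) (Sur n f) w) *
          (algebraMap (LaurentPolynomial K) (Sur n f) u * algebraMap (LaurentPolynomial K) (Sur n f) v + 1) * e3

end Pool.Agent.KS6_28.TB
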