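import Pool.Agent.KS6_28.TB.Cls

/-!
# Classification of the surfaces `z ^ 2 = (T - 2) ((T - 1) ^ n y + (T - 2) f)`, `f(1) = 1`
-/

set_option autoImplicit false

namespace Pool.Agent.KS6_28.TB
open Polynomial Pool.Agent.H.MP_340332_ag

variable {K : Type*} [Field K]


/-- the unit `1` of `K` -/
theorem u1 (K : Type*) [Field K] : IsUnit (1 : K) := isUnit_one

theorem t_sub_one_dvd {h : (LaurentPolynomial K)} : (LaurentPolynomial.T 1 : LaurentPolynomial K) - 1 ∣ h ↔ evL (K := K) (u1 K) h = 0 := by
  rw [← dvd_iff (K := K) (u1 K) h, map_one]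

theorem comb_rel {R : Type*} [CommRing R] {m' e' M E α β γ δ η : R}
    (h4 : (algebraMap R (Q m' e') α * yy m' e' + algebraMap R _ β) *
      (algebraMap R (Q m' e') α * yy m' e' + algebraMap R _ β) =
      algebraMap R (Q m' e') M * (algebraMap R (Q m' e') γ * zz m' e' +
        algebraMap R (Q m' e') δ * yy m' e' + algebraMap R (Q m' e') η) +
          algebraMap R (Q m' e') E) :
    α ^ 2 * m' = M * γ ∧ 2 * α * β = M * δ ∧ α ^ 2 * e' + β ^ 2 = M * η + E := by
  apply comb_eq (m := m') (e := e')
  have := rel (m := m') (e := e')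
  simp only [map_mul, map_add, map_pow, map_ofNat]
  linear_combination h4 - algebraMap _ _ α ^ 2 * this

theorem classify [CharZero K] {n n' : ℕ} (hn : 1 ≤ n) (hn' : 1 ≤ n') {f g : (LaurentPolynomial K)}
    (hf : (LaurentPolynomial.T 1 : LaurentPolynomial K) - 1 ∣ f - 1) (hg : (LaurentPolynomial.T 1 : LaurentPolynomial K) - 1 ∣ g - 1) (φ : Sur n f ≃ₐ[K] Sur n' g) :
    n = n' ∧ ∃ j : ℤ, ((LaurentPolynomial.T 1 : LaurentPolynomial K) - 1) ^ n ∣ f - LaurentPolynomial.T (2 * j) * g := by
  have hm : ((LaurentPolynomial.T 1 : LaurentPolynomial K) - 2) * ((LaurentPolynomial.T 1 : LaurentPolynomial K) - 1) ^ n ≠ 0 := mm_ne n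
  have hm' : ((LaurentPolynomial.T 1 : LaurentPolynomial K) - 2) * ((LaurentPolynomial.T 1 : LaurentPolynomial K) - 1) ^ n' ≠ 0 := mm_ne n'
  have ht1 : (LaurentPolynomial.T 1 : LaurentPolynomial K) - 1 ≠ 0 := by
    intro h
    exact hm (by rw [h, zero_pow (by omega), mul_zero])
  have ht2 : (LaurentPolynomial.T 1 : LaurentPolynomial K) - 2 ≠ 0 := left_ne_zero_of_mul hm
  have hf1 : evL (K := K) (u1 K) f = 1 := by
    have := t_sub_one_dvd.1 hf
    rwa [map_sub, map_one, sub_eq_zero] at this
  have hg1 : evL (K := K) (u1 K) g = 1 := by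
    have := t_sub_one_dvd.1 hg
    rwa [map_sub, map_one, sub_eq_zero] at this
  obtain ⟨s, α, β, γ, δ, η, hα, hγ, h1, h2, h3⟩ := iso_form hm hm' φ
  obtain ⟨hs, c, j, hc, hj, hsj, h1'⟩ := iso_T hm hm' φ h1
  have h4 := congrArg φ (rel (m := ((LaurentPolynomial.T 1 : LaurentPolynomial K) - 2) * ((LaurentPolynomial.T 1 : LaurentPolynomial K) - 1) ^ n) (e := ((LaurentPolynomial.T 1 : LaurentPolynomial K) - 2) ^ 2 * f))
  rw [map_mul φ, map_add φ, map_mul φ, h1', h1', h2, h3] at h4
  have h5 : evL (S := (LaurentPolynomial K)) hs (((LaurentPolynomial.T 1 : LaurentPolynomial K) - 2) * ((LaurentPolynomial.T 1 : LaurentPolynomial K) - 1) ^ n) = (s - 2) * (s - 1) ^ n := by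
    simp only [map_mul, map_sub, map_pow, map_ofNat, map_one, evL_T]
  have h6 : evL (S := (LaurentPolynomial K)) hs (((LaurentPolynomial.T 1 : LaurentPolynomial K) - 2) ^ 2 * f) = (s - 2) ^ 2 * evL (S := (LaurentPolynomial K)) hs f := by
    simp only [map_mul, map_sub, map_pow, map_ofNat, evL_T]
  rw [h5, h6] at h4
  obtain ⟨f1, f2, f3⟩ := comb_rel h4
  have evu : ∀ {τ : K} (hτ : IsUnit τ) {u : (LaurentPolynomial K)}, IsUnit u → evL hτ u ≠ 0 := fun hτ u hu =>
    (hu.map (evL hτ)).ne_zero
  -- the possible values of `s`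
  have k1 : ∀ (τ : K) (hτ : IsUnit τ), (evL hτ s = 1 ∨ evL hτ s = 2) → τ = 2 ∨ τ = 1 := by
    intro τ hτ h
    have g1 := congrArg (evL hτ) f1
    simp only [map_mul, map_sub, map_pow, map_ofNat, map_one, evL_T] at g1
    have g2 : evL hτ α ^ 2 * ((τ - 2) * (τ - 1) ^ n') = 0 := by
      rw [g1]
      rcases h with h | h <;> rw [h]
      · rw [sub_self, zero_pow (by omega)]; ring
      · rw [sub_self]; ring
    have g3 := (mul_eq_zero.1 g2).resolve_left (pow_ne_zero _ (evu hτ hα))
    rcases mul_eq_zero.1 g3 with g | g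
    · left; linear_combination g
    · right
      have := pow_eq_zero_iff (by omega) |>.1 g
      linear_combination this
  rcases hj with rfl | rfl
  · -- `s = c T`
    have hs' : ∀ (τ : K) (hτ : IsUnit τ), evL hτ s = c * τ := by
      intro τ hτ
      rw [hsj, map_mul, evL_C, evL_T, Algebra.algebraMap_self, RingHom.id_apply]
    have c1 : c = 1 := by
      have w1 : IsUnit c⁻¹ := IsUnit.mk0 _ (inv_ne_zero hc)
      have u2 : IsUnit (2 * c⁻¹) := IsUnit.mk0 _ (mul_ne_zero two_ne_zero (inv_ne_zero hc))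
      have a1 := k1 _ w1 (Or.inl (by rw [hs', mul_inv_cancel₀ hc]))
      have a2 := k1 _ u2 (Or.inr (by rw [hs', mul_left_comm, mul_inv_cancel₀ hc, mul_one]))
      rcases a1 with a1 | a1
      · rw [a1] at a2
        rcases a2 with a2 | a2 <;> norm_num at a2
      · rwa [inv_eq_one] at a1
    subst c1
    have hst : s = (LaurentPolynomial.T 1 : LaurentPolynomial K) := by rw [hsj]; simp
    have hsf : evL (S := (LaurentPolynomial K)) hs f = f := by
      have : evL (S := (LaurentPolynomial K)) hs = RingHom.id (LaurentPolynomial K) := L_ext (fun k => by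
        rw [evL_C, ← LaurentPolynomial.C_eq_algebraMap]; rfl) (by rw [evL_T, hst]; rfl)
      rw [this]; rfl
    rw [hsf] at f3
    rw [hst] at f1 f2 f3
    have f1' : α ^ 2 * ((LaurentPolynomial.T 1 : LaurentPolynomial K) - 1) ^ n' = ((LaurentPolynomial.T 1 : LaurentPolynomial K) - 1) ^ n * γ := by
      apply mul_left_cancel₀ ht2
      linear_combination f1
    have hnn : n = n' := by
      rcases lt_trichotomy n n' with h | h | h
      · exfalso
        obtain ⟨k, rfl⟩ : ∃ k, n' = n + (k + 1) := ⟨n' - n - 1, by omega⟩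
        have : α ^ 2 * (((LaurentPolynomial.T 1 : LaurentPolynomial K) - 1) ^ k * ((LaurentPolynomial.T 1 : LaurentPolynomial K) - 1)) = γ := by
          apply mul_left_cancel₀ (pow_ne_zero n ht1)
          linear_combination f1'
        have := congrArg (evL (K := K) (u1 K)) this
        simp only [map_mul, map_sub, map_one, evL_T, sub_self, mul_zero] at this
        exact evu (u1 K) hγ this.symm
      · exact h
      · exfalso
        obtain ⟨k, rfl⟩ : ∃ k, n = n' + (k + 1) := ⟨n - n' - 1, by omega⟩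
        have : α ^ 2 = (((LaurentPolynomial.T 1 : LaurentPolynomial K) - 1) ^ k * ((LaurentPolynomial.T 1 : LaurentPolynomial K) - 1)) * γ := by
          apply mul_left_cancel₀ (pow_ne_zero n' ht1)
          linear_combination f1'
        have := congrArg (evL (K := K) (u1 K)) this
        simp only [map_mul, map_sub, map_one, evL_T, sub_self, mul_zero, zero_mul] at this
        exact evu (u1 K) (hα.pow 2) this
    refine ⟨hnn, ?_⟩
    subst hnn
    have d1 : ((LaurentPolynomial.T 1 : LaurentPolynomial K) - 1) ^ n ∣ β := by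
      have h2α : IsUnit (2 * α) := by
        refine IsUnit.mul ?_ hα
        rw [← map_ofNat LaurentPolynomial.C]
        exact (IsUnit.mk0 (2 : K) two_ne_zero).map _
      rw [← h2α.dvd_mul_left, f2]
      exact ⟨((LaurentPolynomial.T 1 : LaurentPolynomial K) - 2) * δ, by ring⟩
    have d2 : ((LaurentPolynomial.T 1 : LaurentPolynomial K) - 1) ^ n ∣ ((LaurentPolynomial.T 1 : LaurentPolynomial K) - 2) ^ 2 * (f - α ^ 2 * g) := by
      have : ((LaurentPolynomial.T 1 : LaurentPolynomial K) - 2) ^ 2 * (f - α ^ 2 * g) = β * β - ((LaurentPolynomial.T 1 : LaurentPolynomial K) - 1) ^ n * (((LaurentPolynomial.T 1 : LaurentPolynomial K) - 2) * η) := by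
        linear_combination -f3
      rw [this]
      exact dvd_sub (d1.mul_right _) (dvd_mul_right _ _)
    have cop : IsCoprime (((LaurentPolynomial.T 1 : LaurentPolynomial K) - 1) ^ n) (((LaurentPolynomial.T 1 : LaurentPolynomial K) - 2) ^ 2) := by
      apply IsCoprime.pow
      exact ⟨1, -1, by ring⟩
    have d3 : ((LaurentPolynomial.T 1 : LaurentPolynomial K) - 1) ^ n ∣ f - α ^ 2 * g := cop.dvd_of_dvd_mul_left d2
    obtain ⟨a, i, ha, hai⟩ := unit_form hα
    have e1 : a ^ 2 = 1 := by
      have h := t_sub_one_dvd.1 ((dvd_pow_self _ (by omega)).trans d3)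
      have hT : evL (K := K) (u1 K) (LaurentPolynomial.T i : (LaurentPolynomial K)) = 1 := by
        simp [evL]
      rw [map_sub, map_mul, map_pow, hf1, hg1, hai, map_mul, evL_C, hT, mul_one, mul_one] at h
      simp only [Algebra.algebraMap_self, RingHom.id_apply] at h
      linear_combination -h
    refine ⟨i, ?_⟩
    have e2 : α ^ 2 = LaurentPolynomial.T (2 * i) := by
      rw [hai, mul_pow, ← map_pow, e1, map_one, one_mul, two_mul, LaurentPolynomial.T_add, sq]
    rwa [e2] at d3
  · -- `s = c / T`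
    have hs' : ∀ (τ : K) (hτ : IsUnit τ), evL hτ s = c * τ⁻¹ := by
      intro τ hτ
      have h : evL (K := K) hτ (LaurentPolynomial.T (-1) : (LaurentPolynomial K)) = τ⁻¹ := by
        have := congrArg (evL (K := K) hτ) (TT (K := K))
        rw [map_mul, evL_T, map_one] at this
        exact eq_inv_of_mul_eq_one_right this
      rw [hsj, map_mul, evL_C, h, Algebra.algebraMap_self, RingHom.id_apply]
    have c1 : c = 2 := by
      have w1 : IsUnit c := IsUnit.mk0 _ hc
      have u2 : IsUnit (c / 2) := IsUnit.mk0 _ (div_ne_zero hc two_ne_zero)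
      have a1 := k1 _ w1 (Or.inl (by rw [hs', mul_inv_cancel₀ hc]))
      have a2 := k1 _ u2 (Or.inr (by rw [hs']; field_simp))
      rcases a1 with a1 | a1
      · exact a1
      · rw [a1] at a2
        rcases a2 with a2 | a2 <;> norm_num at a2
    have ht : (LaurentPolynomial.T (-1) : (LaurentPolynomial K)) * (LaurentPolynomial.T 1 : LaurentPolynomial K) = 1 := by rw [mul_comm]; exact TT
    have f1' : α ^ 2 * (((LaurentPolynomial.T 1 : LaurentPolynomial K) - 2) * ((LaurentPolynomial.T 1 : LaurentPolynomial K) - 1) ^ n') * (LaurentPolynomial.T 1 : LaurentPolynomial K) ^ (n + 1) =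
        (-2 * ((LaurentPolynomial.T 1 : LaurentPolynomial K) - 1)) * ((2 - (LaurentPolynomial.T 1 : LaurentPolynomial K)) ^ n * γ) := by
      have h7 : (s - 2) * (LaurentPolynomial.T 1 : LaurentPolynomial K) = -2 * ((LaurentPolynomial.T 1 : LaurentPolynomial K) - 1) := by
        rw [hsj, c1, map_ofNat]; linear_combination 2 * ht
      have h8 : (s - 1) * (LaurentPolynomial.T 1 : LaurentPolynomial K) = 2 - (LaurentPolynomial.T 1 : LaurentPolynomial K) := by
        rw [hsj, c1, map_ofNat]; linear_combination 2 * ht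
      rw [f1, ← h7, ← h8, mul_pow]
      ring
    have n1 : n = 1 := by
      by_contra h
      obtain ⟨k, rfl⟩ : ∃ k, n = k + 2 := ⟨n - 2, by omega⟩
      have : α ^ 2 * ((LaurentPolynomial.T 1 : LaurentPolynomial K) - 1) ^ n' * (LaurentPolynomial.T 1 : LaurentPolynomial K) ^ (k + 2 + 1) =
          (2 * ((LaurentPolynomial.T 1 : LaurentPolynomial K) - 1)) * (2 - (LaurentPolynomial.T 1 : LaurentPolynomial K)) * ((2 - (LaurentPolynomial.T 1 : LaurentPolynomial K)) ^ k * γ) := by
        apply mul_left_cancel₀ ht2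
        linear_combination f1'
      have u2 : IsUnit (2 : K) := IsUnit.mk0 _ two_ne_zero
      have := congrArg (evL (K := K) u2) this
      simp only [map_mul, map_sub, map_pow, map_one, map_ofNat, evL_T, sub_self, mul_zero,
        zero_mul] at this
      refine mul_ne_zero (mul_ne_zero (pow_ne_zero 2 (evu u2 hα)) ?_) ?_ this
      · norm_num
      · exact pow_ne_zero _ two_ne_zero
    have n1' : n' = 1 := by
      by_contra h
      obtain ⟨k, rfl⟩ : ∃ k, n' = k + 2 := ⟨n' - 2, by omega⟩
      have : α ^ 2 * ((LaurentPolynomial.T 1 : LaurentPolynomial K) - 2) * (((LaurentPolynomial.T 1 : LaurentPolynomial K) - 1) ^ k * ((LaurentPolynomial.T 1 : LaurentPolynomial K) - 1)) * (LaurentPolynomial.T 1 : LaurentPolynomial K) ^ (n + 1) =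
          -2 * ((2 - (LaurentPolynomial.T 1 : LaurentPolynomial K)) ^ n * γ) := by
        apply mul_left_cancel₀ ht1
        linear_combination f1'
      have := congrArg (evL (K := K) (u1 K)) this
      simp only [map_mul, map_sub, map_pow, map_one, map_ofNat, map_neg, evL_T, sub_self, mul_zero,
        zero_mul] at this
      have h9 : (2 : K) - 1 = 1 := by norm_num
      rw [h9, one_pow, one_mul] at this
      exact mul_ne_zero (neg_ne_zero.2 two_ne_zero) (evu (u1 K) hγ) this.symm
    subst n1 n1'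
    refine ⟨rfl, 0, ?_⟩
    rw [pow_one, mul_zero, LaurentPolynomial.T_zero, one_mul]
    have : f - g = (f - 1) - (g - 1) := by ring
    rw [this]
    exact dvd_sub hf hg

end Pool.Agent.KS6_28.TB
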