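import Pool.Graph.R_pool_sql_team_39128cda.H.MP_340332_ag.C

/-!
# Cylinders over the surfaces `Y ^ 2 = c (E Z + k)`

If `e ∣ E` and `c k ≡ 1` modulo `e`, then the surfaces `Y ^ 2 = c E Z + c k` and
`Y ^ 2 = c E e Z + c k` have isomorphic cylinders.
-/

set_option autoImplicit false

namespace Pool.Agent.KS6_28.TB
open Polynomial Pool.Agent.H.MP_340332_ag

theorem cyl_step {R : Type*} [CommRing R] [IsDomain R] {c E E' e k r h : R} (hE : E = e * E')
    (hk : 1 - c * k = e * r) (h2 : 2 * h = 1) (hc : c ≠ 0) (hE0 : E ≠ 0) :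
    Nonempty ((Q (c * E) (c * k))[X] ≃ₐ[R] (Q (c * E * e) (c * k))[X]) := by
  have he : e ≠ 0 := by rintro rfl; exact hE0 (by rw [hE, zero_mul])
  have hm : c * E ≠ 0 := mul_ne_zero hc hE0
  have hm' : c * E * e ≠ 0 := mul_ne_zero hm he
  have := dom (e := c * k) hm
  have := dom (e := c * k) hm'
  have a1 := congrArg (algebraMap R (Q (c * E) (c * k))[X]) hE
  have a2 := congrArg (algebraMap R (Q (c * E) (c * k))[X]) hk
  have a3 := congrArg (algebraMap R (Q (c * E) (c * k))[X]) h2
  have b1 := congrArg (algebraMap R (Q (c * E * e) (c * k))[X]) hE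
  have b2 := congrArg (algebraMap R (Q (c * E * e) (c * k))[X]) hk
  have b3 := congrArg (algebraMap R (Q (c * E * e) (c * k))[X]) h2
  have ra := relP (m := c * E) (e := c * k)
  have rb := relP (m := c * E * e) (e := c * k)
  have ne1 : algebraMap R (Q (c * E) (c * k))[X] e ≠ 0 := alg_ne he
  have ne2 : algebraMap R (Q (c * E * e) (c * k))[X] e ≠ 0 := alg_ne he
  simp only [map_sub, map_mul, map_one, map_ofNat] at a1 a2 a3 b1 b2 b3 ra rb
  set y := C (yy (c * E) (c * k)) with hy
  set z := C (zz (c * E) (c * k)) with hz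
  set y' := C (yy (c * E * e) (c * k)) with hy'
  set z' := C (zz (c * E * e) (c * k)) with hz'
  let a : (Q (c * E) (c * k))[X] := algebraMap R _ e * X - algebraMap R _ h * y * z
  have ha : a = algebraMap R _ e * X - algebraMap R _ h * y * z := rfl
  have hz'' : algebraMap R (Q (c * E) (c * k))[X] e * (2 * y * X + z * (algebraMap R _ r -
      algebraMap R _ c * algebraMap R _ E' * z) + algebraMap R _ c * algebraMap R _ E' * a ^ 2) =
      z + 2 * y * a + algebraMap R _ c * algebraMap R _ E * a ^ 2 := by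
    rw [ha]
    linear_combination z * ra - z * a2 +
      (algebraMap R _ c * z ^ 2 - algebraMap R _ c * (algebraMap R _ e * X -
        algebraMap R _ h * y * z) ^ 2) * a1 + (y ^ 2 * z) * a3
  let Φ : (Q (c * E * e) (c * k))[X] →ₐ[R] (Q (c * E) (c * k))[X] :=
    mkA (y + algebraMap R _ c * algebraMap R _ E * a)
      (2 * y * X + z * (algebraMap R _ r - algebraMap R _ c * algebraMap R _ E' * z) +
        algebraMap R _ c * algebraMap R _ E' * a ^ 2) a
      (by
        simp only [map_mul]
        linear_combination ra - (algebraMap R _ c * algebraMap R _ E) * hz'')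
  let Ψ : (Q (c * E) (c * k))[X] →ₐ[R] (Q (c * E * e) (c * k))[X] :=
    mkA (y' - algebraMap R _ c * algebraMap R _ E * X)
      (algebraMap R _ e * z' - 2 * y' * X + algebraMap R _ c * algebraMap R _ E * X ^ 2)
      (X * (algebraMap R _ r - algebraMap R _ c * algebraMap R _ E * z') +
        algebraMap R _ h * y' * z' - algebraMap R _ h * algebraMap R _ c * algebraMap R _ E * z' * X
        + 3 * algebraMap R _ h * algebraMap R _ c * algebraMap R _ E' * y' * X ^ 2 -
        algebraMap R _ h * algebraMap R _ c ^ 2 * algebraMap R _ E * algebraMap R _ E' * X ^ 3)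
      (by
        simp only [map_mul]
        linear_combination rb)
  have Φy : Φ y' = _ := mkA_y _ _ _ _
  have Φz : Φ z' = _ := mkA_z _ _ _ _
  have Φu : Φ X = _ := mkA_u _ _ _ _
  have Ψy : Ψ y = _ := mkA_y _ _ _ _
  have Ψz : Ψ z = _ := mkA_z _ _ _ _
  have Ψu : Ψ X = _ := mkA_u _ _ _ _
  have key : algebraMap R _ e * Ψ X = X + algebraMap R _ h * Ψ y * Ψ z := by
    rw [Ψy, Ψz, Ψu]
    linear_combination X * rb - X * b2 +
      (-3 * algebraMap R _ h * algebraMap R _ c * y' * X ^ 2 +
        algebraMap R _ h * algebraMap R _ c ^ 2 * algebraMap R _ E * X ^ 3) * b1 +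
      (y' ^ 2 * X) * b3
  have Ψa : Ψ a = X := by
    rw [ha]
    simp only [map_sub, map_mul, AlgHom.commutes]
    linear_combination key
  have c1 : Φ (Ψ y) = y := by
    rw [Ψy]
    simp only [map_sub, map_mul, AlgHom.commutes, Φy, Φu]
    ring
  have c2 : Φ (Ψ z) = z := by
    rw [Ψz]
    simp only [map_sub, map_add, map_mul, map_pow, map_ofNat, AlgHom.commutes, Φy, Φz, Φu]
    linear_combination hz''
  have c3 : Φ (Ψ X) = X := by
    apply mul_left_cancel₀ ne1
    have := congrArg Φ key
    simp only [map_add, map_mul, AlgHom.commutes, c1, c2, Φu] at this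
    rw [this, ha]
    ring
  refine ⟨AlgEquiv.ofAlgHom Ψ Φ (A_ext (alg_ne hm') ?_ ?_) (A_ext (alg_ne hm) ?_ ?_)⟩
  · simp only [AlgHom.comp_apply, AlgHom.id_apply, ← hy', Φy]
    simp only [map_add, map_mul, AlgHom.commutes, Ψy, Ψa]
    ring
  · simp only [AlgHom.comp_apply, AlgHom.id_apply, Φu, Ψa]
  · simp only [AlgHom.comp_apply, AlgHom.id_apply, ← hy]
    exact c1
  · simp only [AlgHom.comp_apply, AlgHom.id_apply]
    exact c3

/-- The shift `z ↦ z + r`. -/
theorem shift {R : Type*} [CommRing R] (m e r : R) : Nonempty (Q m e ≃ₐ[R] Q m (e + m * r)) := by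
  have h1 : yy m (e + m * r) * yy m (e + m * r) = algebraMap R _ m * (zz m (e + m * r) +
      algebraMap R _ r) + algebraMap R _ e := by rw [rel]; simp only [map_mul, map_add]; ring
  have h2 : yy m e * yy m e = algebraMap R _ m * (zz m e - algebraMap R _ r) +
      algebraMap R _ (e + m * r) := by rw [rel]; simp only [map_mul, map_add]; ring
  let Φ : Q m e →ₐ[R] Q m (e + m * r) :=
    { mkQ (algebraMap R _) _ _ h1 with commutes' := mkQ_alg _ _ _ _ }
  let Ψ : Q m (e + m * r) →ₐ[R] Q m e :=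
    { mkQ (algebraMap R _) _ _ h2 with commutes' := mkQ_alg _ _ _ _ }
  have Φy : Φ (yy m e) = yy _ _ := mkQ_y _ _ _ h1
  have Φz : Φ (zz m e) = _ := mkQ_z _ _ _ h1
  have Ψy : Ψ (yy m (e + m * r)) = yy _ _ := mkQ_y _ _ _ h2
  have Ψz : Ψ (zz m (e + m * r)) = _ := mkQ_z _ _ _ h2
  refine ⟨AlgEquiv.ofAlgHom Φ Ψ ?_ ?_⟩
  · apply AlgHom.ext
    refine Q_ind (fun r => by simp only [AlgHom.commutes]) ?_ ?_
      (fun a b h1 h2 => by simp only [map_add, h1, h2]) fun a b h1 h2 => by
        simp only [map_mul, h1, h2]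
    · simp only [AlgHom.comp_apply, AlgHom.id_apply, Φy, Ψy]
    · simp only [AlgHom.comp_apply, AlgHom.id_apply, Ψz, map_sub, Φz, AlgHom.commutes,
        add_sub_cancel_right]
  · apply AlgHom.ext
    refine Q_ind (fun r => by simp only [AlgHom.commutes]) ?_ ?_
      (fun a b h1 h2 => by simp only [map_add, h1, h2]) fun a b h1 h2 => by
        simp only [map_mul, h1, h2]
    · simp only [AlgHom.comp_apply, AlgHom.id_apply, Φy, Ψy]
    · simp only [AlgHom.comp_apply, AlgHom.id_apply, Φz, map_add, Ψz, AlgHom.commutes,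
        sub_add_cancel]

end Pool.Agent.KS6_28.TB
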