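import Pool.Agent.KS6_28.TB.Nor

/-!
# Type B, cylinders and families
-/

set_option autoImplicit false

namespace Pool.Agent.KS6_28.TB
open Polynomial Pool.Agent.H.MP_340332_ag

variable {K : Type*} [Field K]


theorem sur_typeB [CharZero K] (n : ℕ) (f : (LaurentPolynomial K)) :
    HD K (Sur n f)[X] ≠ ⊤ ∧ ¬ (HD K (Sur n f)[X]).FG := by
  have u2 : IsUnit (2 : K) := IsUnit.mk0 _ two_ne_zero
  refine typeB u2 (m1 := ((LaurentPolynomial.T 1 : LaurentPolynomial K) - 1) ^ n) (e1 := f) (by rw [map_ofNat]) (by rw [map_ofNat]) ?_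
    (mm_ne n)
  simp only [map_pow, map_sub, evL_T, map_one]
  norm_num

theorem cyl_succ [CharZero K] (n : ℕ) {f : (LaurentPolynomial K)} (hf : (LaurentPolynomial.T 1 : LaurentPolynomial K) - 1 ∣ f - 1) :
    Nonempty ((Sur (n + 1) f)[X] ≃ₐ[(LaurentPolynomial K)] (Sur (n + 2) f)[X]) := by
  obtain ⟨r, hr⟩ := hf
  have h12 : 2 * LaurentPolynomial.C (2⁻¹ : K) = 1 := by
    rw [← map_ofNat LaurentPolynomial.C, ← map_mul, mul_inv_cancel₀ two_ne_zero, map_one]
  have ht : ((LaurentPolynomial.T 1 : LaurentPolynomial K) - 1) ^ (n + 1) ≠ 0 := right_ne_zero_of_mul (mm_ne (K := K) _)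
  have h := cyl_step (c := (LaurentPolynomial.T 1 : LaurentPolynomial K) - 2) (E := ((LaurentPolynomial.T 1 : LaurentPolynomial K) - 1) ^ (n + 1)) (E' := ((LaurentPolynomial.T 1 : LaurentPolynomial K) - 1) ^ n) (e := (LaurentPolynomial.T 1 : LaurentPolynomial K) - 1)
    (k := ((LaurentPolynomial.T 1 : LaurentPolynomial K) - 2) * f) (r := -((LaurentPolynomial.T 1 : LaurentPolynomial K) - 3) * f - r) (h := LaurentPolynomial.C (2⁻¹ : K))
    (pow_succ' _ _) (by linear_combination -hr) h12 (left_ne_zero_of_mul (mm_ne (K := K) 0)) ht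
  have e1 : ((LaurentPolynomial.T 1 : LaurentPolynomial K) - 2) * (((LaurentPolynomial.T 1 : LaurentPolynomial K) - 2) * f) = ((LaurentPolynomial.T 1 : LaurentPolynomial K) - 2) ^ 2 * f := by ring
  have e2 : ((LaurentPolynomial.T 1 : LaurentPolynomial K) - 2) * ((LaurentPolynomial.T 1 : LaurentPolynomial K) - 1) ^ (n + 1) * ((LaurentPolynomial.T 1 : LaurentPolynomial K) - 1) = ((LaurentPolynomial.T 1 : LaurentPolynomial K) - 2) * ((LaurentPolynomial.T 1 : LaurentPolynomial K) - 1) ^ (n + 2) := by ring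
  rw [e1, e2] at h
  exact h

theorem cyl_one [CharZero K] {f : (LaurentPolynomial K)} (hf : (LaurentPolynomial.T 1 : LaurentPolynomial K) - 1 ∣ f - 1) (n : ℕ) :
    Nonempty ((Sur 1 (1 : (LaurentPolynomial K)))[X] ≃ₐ[(LaurentPolynomial K)] (Sur (n + 1) f)[X]) := by
  induction n with
  | zero =>
    obtain ⟨φ⟩ := iso_of (K := K) (n := 1) (f := 1) (g := f) (j := 0) (by
      have h3 : (1 : (LaurentPolynomial K)) - f = -(f - 1) := by ring
      rw [pow_one, mul_zero, LaurentPolynomial.T_zero, one_mul, h3, dvd_neg]; exact hf)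
    exact ⟨Polynomial.mapAlgEquiv φ⟩
  | succ n ih =>
    obtain ⟨φ⟩ := ih
    obtain ⟨ψ⟩ := cyl_succ n hf
    exact ⟨φ.trans ψ⟩

theorem cylinders [CharZero K] {n n' : ℕ} (hn : 1 ≤ n) (hn' : 1 ≤ n') {f g : (LaurentPolynomial K)}
    (hf : (LaurentPolynomial.T 1 : LaurentPolynomial K) - 1 ∣ f - 1) (hg : (LaurentPolynomial.T 1 : LaurentPolynomial K) - 1 ∣ g - 1) :
    Nonempty ((Sur n f)[X] ≃ₐ[K] (Sur n' g)[X]) := by
  obtain ⟨n, rfl⟩ : ∃ k, n = k + 1 := ⟨n - 1, by omega⟩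
  obtain ⟨n', rfl⟩ : ∃ k, n' = k + 1 := ⟨n' - 1, by omega⟩
  obtain ⟨φ⟩ := cyl_one hf n
  obtain ⟨ψ⟩ := cyl_one hg n'
  exact ⟨(φ.symm.trans ψ).restrictScalars K⟩

theorem iso_iff [CharZero K] {n n' : ℕ} (hn : 1 ≤ n) (hn' : 1 ≤ n') {f g : (LaurentPolynomial K)}
    (hf : (LaurentPolynomial.T 1 : LaurentPolynomial K) - 1 ∣ f - 1) (hg : (LaurentPolynomial.T 1 : LaurentPolynomial K) - 1 ∣ g - 1) : Nonempty (Sur n f ≃ₐ[K] Sur n' g) ↔
      n = n' ∧ ∃ j : ℤ, ((LaurentPolynomial.T 1 : LaurentPolynomial K) - 1) ^ n ∣ f - LaurentPolynomial.T (2 * j) * g := by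
  constructor
  · rintro ⟨φ⟩
    exact classify hn hn' hf hg φ
  · rintro ⟨rfl, j, hj⟩
    obtain ⟨φ⟩ := iso_of hj
    exact ⟨φ.restrictScalars K⟩

/-- The polynomial `1 + ∑ a_i (T - 1) ^ (i + 2)`. -/
noncomputable def fam {r : ℕ} (a : Fin r → K) : (LaurentPolynomial K) :=
  1 + ∑ i, LaurentPolynomial.C (a i) * ((LaurentPolynomial.T 1 : LaurentPolynomial K) - 1) ^ ((i : ℕ) + 2)

theorem fam_eq {r : ℕ} (a : Fin r → K) : fam a = 1 + ((LaurentPolynomial.T 1 : LaurentPolynomial K) - 1) ^ 2 *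
    ∑ i, LaurentPolynomial.C (a i) * ((LaurentPolynomial.T 1 : LaurentPolynomial K) - 1) ^ (i : ℕ) := by
  rw [fam, Finset.mul_sum]
  congr 1
  exact Finset.sum_congr rfl fun i _ => by ring

theorem fam_sub {r : ℕ} (a : Fin r → K) : (LaurentPolynomial.T 1 : LaurentPolynomial K) - 1 ∣ fam a - 1 := by
  rw [fam_eq, add_sub_cancel_left]
  exact ((dvd_pow_self _ two_ne_zero).mul_right _)

theorem t_ne : (LaurentPolynomial.T 1 : LaurentPolynomial K) - 1 ≠ 0 := by
  have := (prime_t (K := K) (u1 K)).ne_zero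
  rwa [map_one] at this

theorem coeffs {r : ℕ} : ∀ c : Fin r → K,
    ((LaurentPolynomial.T 1 : LaurentPolynomial K) - 1) ^ r ∣ ∑ i, LaurentPolynomial.C (c i) * ((LaurentPolynomial.T 1 : LaurentPolynomial K) - 1) ^ (i : ℕ) → c = 0 := by
  induction r with
  | zero => intro c _; exact Subsingleton.elim _ _
  | succ r ih =>
    intro c h
    have e : ∑ i, LaurentPolynomial.C (c i) * ((LaurentPolynomial.T 1 : LaurentPolynomial K) - 1) ^ (i : ℕ) = LaurentPolynomial.C (c 0) +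
        ((LaurentPolynomial.T 1 : LaurentPolynomial K) - 1) * ∑ i : Fin r, LaurentPolynomial.C (c i.succ) * ((LaurentPolynomial.T 1 : LaurentPolynomial K) - 1) ^ (i : ℕ) := by
      rw [Fin.sum_univ_succ, Finset.mul_sum]
      congr 1
      · simp
      · exact Finset.sum_congr rfl fun i _ => by rw [Fin.val_succ]; ring
    rw [e] at h
    have h0 : c 0 = 0 := by
      have h1 := t_sub_one_dvd.1 ((dvd_pow_self ((LaurentPolynomial.T 1 : LaurentPolynomial K) - 1) (Nat.succ_ne_zero r)).trans h)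
      simpa using h1
    rw [h0, map_zero, zero_add, pow_succ', mul_dvd_mul_iff_left t_ne] at h
    have := ih _ h
    funext i
    refine Fin.cases h0 (fun j => congrFun this j) i

theorem T_even [CharZero K] {j : ℤ} (h : ((LaurentPolynomial.T 1 : LaurentPolynomial K) - 1) ^ 2 ∣ 1 - LaurentPolynomial.T (2 * j)) :
    j = 0 := by
  obtain ⟨N, hN⟩ := Int.eq_nat_or_neg (2 * j)
  have h1 : ((LaurentPolynomial.T 1 : LaurentPolynomial K) - 1) ^ 2 ∣ (LaurentPolynomial.T 1 : LaurentPolynomial K) ^ N - 1 := by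
    rcases hN with hN | hN
    · have : (LaurentPolynomial.T (2 * j) : (LaurentPolynomial K)) = (LaurentPolynomial.T 1 : LaurentPolynomial K) ^ N := by
        rw [hN, LaurentPolynomial.T_pow, mul_one]
      rw [this] at h
      have h3 : (LaurentPolynomial.T 1 : LaurentPolynomial K) ^ N - 1 = -(1 - (LaurentPolynomial.T 1 : LaurentPolynomial K) ^ N) := by ring
      rw [h3, dvd_neg]
      exact h
    · have : (LaurentPolynomial.T (2 * j) : (LaurentPolynomial K)) * (LaurentPolynomial.T 1 : LaurentPolynomial K) ^ N = 1 := by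
        rw [hN, LaurentPolynomial.T_pow, mul_one, ← LaurentPolynomial.T_add]; simp
      have h2 := h.mul_right ((LaurentPolynomial.T 1 : LaurentPolynomial K) ^ N)
      rwa [sub_mul, this, one_mul] at h2
  rw [← mul_geom_sum, sq, mul_dvd_mul_iff_left t_ne] at h1
  have h2 := t_sub_one_dvd.1 h1
  simp only [map_sum, map_pow, evL_T, one_pow, Finset.sum_const, Finset.card_range,
    nsmul_eq_mul, mul_one, Nat.cast_eq_zero] at h2
  subst h2
  simp at hN
  exact hN

theorem fam_inj [CharZero K] {r : ℕ} {a b : Fin r → K}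
    (φ : Sur (r + 2) (fam a) ≃ₐ[K] Sur (r + 2) (fam b)) : a = b := by
  obtain ⟨-, j, hj⟩ := classify (by omega) (by omega) (fam_sub a) (fam_sub b) φ
  have h1 : ((LaurentPolynomial.T 1 : LaurentPolynomial K) - 1) ^ 2 ∣ 1 - LaurentPolynomial.T (2 * j) := by
    have h2 := (pow_dvd_pow ((LaurentPolynomial.T 1 : LaurentPolynomial K) - 1) (show 2 ≤ r + 2 by omega)).trans hj
    rw [fam_eq, fam_eq] at h2
    have h3 : (1 : (LaurentPolynomial K)) - LaurentPolynomial.T (2 * j) =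
        (1 + ((LaurentPolynomial.T 1 : LaurentPolynomial K) - 1) ^ 2 * ∑ i, LaurentPolynomial.C (a i) * ((LaurentPolynomial.T 1 : LaurentPolynomial K) - 1) ^ (i : ℕ) -
          LaurentPolynomial.T (2 * j) * (1 + ((LaurentPolynomial.T 1 : LaurentPolynomial K) - 1) ^ 2 *
            ∑ i, LaurentPolynomial.C (b i) * ((LaurentPolynomial.T 1 : LaurentPolynomial K) - 1) ^ (i : ℕ))) -
        ((LaurentPolynomial.T 1 : LaurentPolynomial K) - 1) ^ 2 * (∑ i, LaurentPolynomial.C (a i) * ((LaurentPolynomial.T 1 : LaurentPolynomial K) - 1) ^ (i : ℕ) -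
          LaurentPolynomial.T (2 * j) *
            ∑ i, LaurentPolynomial.C (b i) * ((LaurentPolynomial.T 1 : LaurentPolynomial K) - 1) ^ (i : ℕ)) := by ring
    rw [h3]
    exact dvd_sub h2 (dvd_mul_right _ _)
  have hj0 := T_even h1
  subst hj0
  rw [mul_zero, LaurentPolynomial.T_zero, one_mul, fam_eq, fam_eq, add_sub_add_left_eq_sub,
    ← mul_sub, ← Finset.sum_sub_distrib, add_comm r 2, pow_add,
    mul_dvd_mul_iff_left (pow_ne_zero 2 t_ne)] at hj
  have h2 := coeffs (fun i => a i - b i) (by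
    simpa only [map_sub, sub_mul] using hj)
  funext i
  exact sub_eq_zero.1 (congrFun h2 i)

end Pool.Agent.KS6_28.TB
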