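import Pool.Agent.KS6_28.TB.Cls2

/-!
# Normality of the surfaces `z ^ 2 = (T - 2) ((T - 1) ^ n y + (T - 2) f)`
-/

set_option autoImplicit false

namespace Pool.Agent.KS6_28.TB
open Polynomial Pool.Agent.H.MP_340332_ag

theorem dvd_of_sq {P : Type*} [CommRing P] [IsDomain P] [UniqueFactorizationMonoid P] {Δ d b : P}
    (hΔ : Squarefree Δ) (hd : d ≠ 0) (h : d ^ 2 ∣ Δ * b ^ 2) : d ∣ b := by
  obtain ⟨b', d', c, h1, rfl, rfl⟩ := UniqueFactorizationMonoid.exists_reduced_factors' b d hd
  have hc : c ≠ 0 := left_ne_zero_of_mul hd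
  have h2 : d' ^ 2 ∣ Δ * b' ^ 2 := by
    rw [mul_pow, mul_pow, mul_left_comm] at h
    exact (mul_dvd_mul_iff_left (pow_ne_zero 2 hc)).1 h
  have h3 : IsRelPrime (d' ^ 2) (b' ^ 2) := h1.symm.pow
  have h4 : d' * d' ∣ Δ := by
    rw [← sq]; exact h3.dvd_of_dvd_mul_right h2
  exact mul_dvd_mul_left c (hΔ d' h4).dvd

section
variable {P : Type*} [CommRing P] [IsDomain P] [UniqueFactorizationMonoid P] {Δ : P}

theorem int_dvd {M : Type*} [Field M] [Algebra P M] [FaithfulSMul P M] {p d : P} (hd : d ≠ 0)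
    (h : IsIntegral P (algebraMap P M p / algebraMap P M d)) : d ∣ p := by
  let := FractionRing.liftAlgebra P M
  have hA : algebraMap P M p / algebraMap P M d =
      algebraMap (FractionRing P) M (algebraMap P _ p / algebraMap P _ d) := by
    rw [map_div₀, ← IsScalarTower.algebraMap_apply, ← IsScalarTower.algebraMap_apply]
  rw [hA, isIntegral_algebraMap_iff (algebraMap (FractionRing P) M).injective] at h
  obtain ⟨y, hy⟩ := IsIntegrallyClosed.isIntegral_iff.1 h
  refine ⟨y, ?_⟩
  have hd' : algebraMap P (FractionRing P) d ≠ 0 := by simpa using hd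
  apply IsFractionRing.injective P (FractionRing P)
  rw [map_mul, hy, mul_div_cancel₀ _ hd']


theorem normal (h2 : IsUnit (2 : P)) (hΔ : Squarefree Δ) [IsDomain (QuadraticAlgebra P Δ 0)] :
    IsIntegrallyClosed (QuadraticAlgebra P Δ 0) := by
  let σ : (QuadraticAlgebra P Δ 0) ≃ₐ[P] (QuadraticAlgebra P Δ 0) :=
    { (starRingAut : (QuadraticAlgebra P Δ 0) ≃+* (QuadraticAlgebra P Δ 0)) with
      commutes' := fun r => by
        change star (algebraMap P (QuadraticAlgebra P Δ 0) r) = _
        ext <;> simp }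
  have hσ : ∀ w, σ w = star w := fun w => rfl
  let τ : (FractionRing (QuadraticAlgebra P Δ 0)) ≃ₐ[P] (FractionRing (QuadraticAlgebra P Δ 0)) := IsFractionRing.algEquivOfAlgEquiv σ
  have hτ : ∀ w, τ (algebraMap (QuadraticAlgebra P Δ 0) (FractionRing (QuadraticAlgebra P Δ 0)) w) = algebraMap (QuadraticAlgebra P Δ 0) (FractionRing (QuadraticAlgebra P Δ 0)) (star w) := fun w =>
    IsFractionRing.algEquivOfAlgEquiv_algebraMap σ w
  rw [isIntegrallyClosed_iff (FractionRing (QuadraticAlgebra P Δ 0))]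
  intro x hx
  have hxP : IsIntegral P x := isIntegral_trans (R := P) (A := (QuadraticAlgebra P Δ 0)) x hx
  obtain ⟨a, b, hb, rfl⟩ := IsFractionRing.div_surjective (A := (QuadraticAlgebra P Δ 0)) x
  have hb0 : b ≠ 0 := nonZeroDivisors.ne_zero hb
  set d : P := QuadraticAlgebra.norm b with hd
  have hbd : algebraMap P (QuadraticAlgebra P Δ 0) d = b * star b := QuadraticAlgebra.algebraMap_norm_eq_mul_star b
  have hsb : star b ≠ 0 := fun h => hb0 (by rw [← star_star b, h, star_zero])
  have hinj : Function.Injective (algebraMap P (QuadraticAlgebra P Δ 0)) := FaithfulSMul.algebraMap_injective P (QuadraticAlgebra P Δ 0)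
  have hd0 : d ≠ 0 := by
    intro h
    rw [h, map_zero] at hbd
    exact mul_ne_zero hb0 hsb hbd.symm
  have hPF : ∀ r : P, algebraMap P (FractionRing (QuadraticAlgebra P Δ 0)) r = algebraMap (QuadraticAlgebra P Δ 0) (FractionRing (QuadraticAlgebra P Δ 0)) (algebraMap P (QuadraticAlgebra P Δ 0) r) := fun r =>
    IsScalarTower.algebraMap_apply P (QuadraticAlgebra P Δ 0) (FractionRing (QuadraticAlgebra P Δ 0)) r
  have hAF : Function.Injective (algebraMap (QuadraticAlgebra P Δ 0) (FractionRing (QuadraticAlgebra P Δ 0))) := IsFractionRing.injective (QuadraticAlgebra P Δ 0) (FractionRing (QuadraticAlgebra P Δ 0))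
  have hdF : algebraMap P (FractionRing (QuadraticAlgebra P Δ 0)) d ≠ 0 := by
    rw [hPF, Ne, map_eq_zero_iff _ hAF, map_eq_zero_iff _ hinj]; exact hd0
  have : FaithfulSMul P (FractionRing (QuadraticAlgebra P Δ 0)) := by
    rw [faithfulSMul_iff_algebraMap_injective]
    intro r s h
    rw [hPF, hPF] at h
    exact hinj (hAF h)
  set w := a * star b with hw
  have hx' : algebraMap (QuadraticAlgebra P Δ 0) (FractionRing (QuadraticAlgebra P Δ 0)) a / algebraMap (QuadraticAlgebra P Δ 0) (FractionRing (QuadraticAlgebra P Δ 0)) b = algebraMap (QuadraticAlgebra P Δ 0) (FractionRing (QuadraticAlgebra P Δ 0)) w / algebraMap P (FractionRing (QuadraticAlgebra P Δ 0)) d := by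
    rw [hPF, hbd, hw, map_mul, map_mul]
    have h1 : algebraMap (QuadraticAlgebra P Δ 0) (FractionRing (QuadraticAlgebra P Δ 0)) b ≠ 0 := by rwa [Ne, map_eq_zero_iff _ hAF]
    have h2 : algebraMap (QuadraticAlgebra P Δ 0) (FractionRing (QuadraticAlgebra P Δ 0)) (star b) ≠ 0 := by rwa [Ne, map_eq_zero_iff _ hAF]
    rw [mul_div_mul_right _ _ h2]
  rw [hx'] at hxP ⊢
  have hτx : τ (algebraMap (QuadraticAlgebra P Δ 0) (FractionRing (QuadraticAlgebra P Δ 0)) w / algebraMap P (FractionRing (QuadraticAlgebra P Δ 0)) d) = algebraMap (QuadraticAlgebra P Δ 0) (FractionRing (QuadraticAlgebra P Δ 0)) (star w) / algebraMap P (FractionRing (QuadraticAlgebra P Δ 0)) d := by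
    rw [map_div₀, hτ, AlgEquiv.commutes]
  have hxτ : IsIntegral P (algebraMap (QuadraticAlgebra P Δ 0) (FractionRing (QuadraticAlgebra P Δ 0)) (star w) / algebraMap P (FractionRing (QuadraticAlgebra P Δ 0)) d) := by
    rw [← hτx]; exact hxP.map τ
  have i1 : IsIntegral P (algebraMap P (FractionRing (QuadraticAlgebra P Δ 0)) (2 * w.re) / algebraMap P (FractionRing (QuadraticAlgebra P Δ 0)) d) := by
    have := hxP.add hxτ
    rw [← add_div, ← map_add] at this
    have h3 : w + star w = algebraMap P (QuadraticAlgebra P Δ 0) (2 * w.re) := by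
      ext
      · simp [two_mul]
      · simp
    rwa [h3, ← hPF] at this
  have i2 : IsIntegral P (algebraMap P (FractionRing (QuadraticAlgebra P Δ 0)) (QuadraticAlgebra.norm w) / algebraMap P (FractionRing (QuadraticAlgebra P Δ 0)) (d ^ 2)) := by
    have := hxP.mul hxτ
    rw [div_mul_div_comm, ← map_mul, ← QuadraticAlgebra.algebraMap_norm_eq_mul_star, ← hPF,
      ← map_mul, ← sq] at this
    exact this
  have j1 : d ∣ w.re := (h2.dvd_mul_left).1 (int_dvd hd0 i1)
  have j2 : d ^ 2 ∣ QuadraticAlgebra.norm w := int_dvd (pow_ne_zero 2 hd0) i2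
  have j3 : d ∣ w.im := by
    apply dvd_of_sq hΔ hd0
    rw [QuadraticAlgebra.norm_def] at j2
    have : Δ * w.im ^ 2 = w.re ^ 2 - (w.re * w.re + 0 * w.re * w.im - Δ * w.im * w.im) := by ring
    rw [this]
    exact dvd_sub (pow_dvd_pow_of_dvd j1 2) j2
  obtain ⟨p, hp⟩ := j1
  obtain ⟨q, hq⟩ := j3
  refine ⟨⟨p, q⟩, ?_⟩
  rw [eq_div_iff hdF, hPF, ← map_mul]
  congr 1
  ext
  · simp [hp, mul_comm]
  · simp [hq, mul_comm]

end

section
variable {K : Type*} [Field K]


instance ufdL : UniqueFactorizationMonoid (LaurentPolynomial K) :=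
  UniqueFactorizationMonoid.of_isLocalization (Submonoid.powers (X : K[X])) (LaurentPolynomial K)

theorem prime_t {τ : K} (hτ : IsUnit τ) : Prime ((LaurentPolynomial.T 1 : LaurentPolynomial K) - LaurentPolynomial.C τ) := by
  refine ⟨fun h => ?_, fun h => ?_, fun a b h => ?_⟩
  · have h1 : (LaurentPolynomial.C 1 * LaurentPolynomial.T 1 : (LaurentPolynomial K)) =
        LaurentPolynomial.C τ * LaurentPolynomial.T 0 := by
      simpa [sub_eq_zero] using h
    exact absurd (C_T_inj hτ.ne_zero h1) one_ne_zero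
  · have := (h.map (evL hτ)).ne_zero
    simp at this
  · rw [dvd_iff hτ, map_mul] at h
    rw [dvd_iff hτ, dvd_iff hτ]
    exact mul_eq_zero.1 h

theorem sq_free [CharZero K] {n : ℕ} {f : (LaurentPolynomial K)} (hf : (LaurentPolynomial.T 1 : LaurentPolynomial K) - 1 ∣ f - 1) :
    Squarefree (C (((LaurentPolynomial.T 1 : LaurentPolynomial K) - 2) * ((LaurentPolynomial.T 1 : LaurentPolynomial K) - 1) ^ n) * X + C (((LaurentPolynomial.T 1 : LaurentPolynomial K) - 2) ^ 2 * f) : (LaurentPolynomial K)[X]) := by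
  have e2 : (LaurentPolynomial.T 1 : LaurentPolynomial K) - 2 = (LaurentPolynomial.T 1 : LaurentPolynomial K) - LaurentPolynomial.C 2 := by rw [map_ofNat]
  have u2 : IsUnit (2 : K) := IsUnit.mk0 _ two_ne_zero
  have hp : Prime ((LaurentPolynomial.T 1 : LaurentPolynomial K) - 2) := by rw [e2]; exact prime_t u2
  have h1 : (C (((LaurentPolynomial.T 1 : LaurentPolynomial K) - 2) * ((LaurentPolynomial.T 1 : LaurentPolynomial K) - 1) ^ n) * X + C (((LaurentPolynomial.T 1 : LaurentPolynomial K) - 2) ^ 2 * f) : (LaurentPolynomial K)[X]) =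
      C ((LaurentPolynomial.T 1 : LaurentPolynomial K) - 2) * (C (((LaurentPolynomial.T 1 : LaurentPolynomial K) - 1) ^ n) * X + C (((LaurentPolynomial.T 1 : LaurentPolynomial K) - 2) * f)) := by
    simp only [map_mul, map_pow]; ring
  have ht1 : ((LaurentPolynomial.T 1 : LaurentPolynomial K) - 1) ^ n ≠ 0 := right_ne_zero_of_mul (mm_ne (K := K) n)
  have hcop : IsCoprime (((LaurentPolynomial.T 1 : LaurentPolynomial K) - 1) ^ n) (((LaurentPolynomial.T 1 : LaurentPolynomial K) - 2) * f) := by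
    apply IsCoprime.pow_left
    apply IsCoprime.mul_right
    · exact ⟨1, -1, by ring⟩
    · obtain ⟨g, hg⟩ := hf
      exact ⟨-g, 1, by linear_combination hg⟩
  have hirr : Irreducible (C (((LaurentPolynomial.T 1 : LaurentPolynomial K) - 1) ^ n) * X + C (((LaurentPolynomial.T 1 : LaurentPolynomial K) - 2) * f) : (LaurentPolynomial K)[X]) := by
    apply irreducible_of_degree_eq_one_of_isRelPrime_coeff
    · exact degree_linear ht1
    · have c0 : (C (((LaurentPolynomial.T 1 : LaurentPolynomial K) - 1) ^ n) * X + C (((LaurentPolynomial.T 1 : LaurentPolynomial K) - 2) * f) : (LaurentPolynomial K)[X]).coeff 0 = ((LaurentPolynomial.T 1 : LaurentPolynomial K) - 2) * f := by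
        rw [coeff_add, coeff_C_mul, coeff_X_zero, coeff_C_zero, mul_zero, zero_add]
      have c1 : (C (((LaurentPolynomial.T 1 : LaurentPolynomial K) - 1) ^ n) * X + C (((LaurentPolynomial.T 1 : LaurentPolynomial K) - 2) * f) : (LaurentPolynomial K)[X]).coeff 1 = ((LaurentPolynomial.T 1 : LaurentPolynomial K) - 1) ^ n := by
        rw [coeff_add, coeff_C_mul, coeff_X_one, coeff_C_succ, mul_one, add_zero]
      rw [c0, c1]
      exact hcop.symm.isRelPrime
  rw [h1, squarefree_mul_iff]
  have hpC : Prime (C ((LaurentPolynomial.T 1 : LaurentPolynomial K) - 2) : (LaurentPolynomial K)[X]) := (prime_C_iff).2 hp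
  refine ⟨?_, hpC.squarefree, hirr.squarefree⟩
  rw [hpC.irreducible.isRelPrime_iff_not_dvd]
  intro h
  have h2 := (C_dvd_iff_dvd_coeff _ _).1 h 1
  simp only [coeff_add, coeff_C_mul, coeff_X_one, coeff_C_succ, mul_one, add_zero] at h2
  have h3 := hp.dvd_of_dvd_pow h2
  rw [e2, dvd_iff u2] at h3
  simp only [map_sub, evL_T, map_one] at h3
  norm_num at h3

theorem sur_normal [CharZero K] {n : ℕ} {f : (LaurentPolynomial K)} (hf : (LaurentPolynomial.T 1 : LaurentPolynomial K) - 1 ∣ f - 1) :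
    IsIntegrallyClosed (Sur n f) := by
  have : IsDomain (QuadraticAlgebra (LaurentPolynomial K)[X] (C (((LaurentPolynomial.T 1 : LaurentPolynomial K) - 2) * ((LaurentPolynomial.T 1 : LaurentPolynomial K) - 1) ^ n) * X + C (((LaurentPolynomial.T 1 : LaurentPolynomial K) - 2) ^ 2 * f)) 0) :=
    dom (mm_ne n)
  apply normal _ (sq_free hf)
  have : (2 : (LaurentPolynomial K)[X]) = algebraMap K (LaurentPolynomial K)[X] 2 := by rw [map_ofNat]
  rw [this]
  exact (IsUnit.mk0 (2 : K) two_ne_zero).map _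

end

end Pool.Agent.KS6_28.TB
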